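import Pool.Agent.H46.CH.AllH
import Pool.Agent.H1.CHE.JCn
import Pool.Agent.H1.CHE.XPn
import Pool.Agent.H20.CHE.EAn
import Pool.Agent.H20.CHE.EBn
import Pool.Agent.H20.CHE.ESn
import Pool.Agent.H23.CHE.SHn
import Pool.Agent.H40.CHE.EDn
import Pool.Agent.H40.CHE.N3
import Pool.Agent.H40.CHE.XBn
import Pool.Agent.H40.CHE.XTn
import Pool.Agent.H43.CHE.ECn
import Pool.Agent.H43.CHE.RGn
import Pool.Agent.H43.CHE.XRn
import Pool.Agent.H46.CHE.LM2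
import Pool.Agent.H46.CHE.PMn
import Pool.Agent.H5.CHE.WGA
import Pool.Agent.H5.CHE.WGB
import Pool.Agent.H5.CHE.WGS
import Pool.Agent.H69.CHE.RMn
import Pool.Agent.H69.CHE.ROn
import Pool.Agent.H70.CHE.XAn
import Pool.Agent.H72.CHE.SMn
import Pool.Agent.H72.CHE.XLn
import Pool.Agent.H79.CHE.XDn
import Pool.Agent.H99.CHE.PSn
import Pool.Agent.H99.CHE.PTn
import Pool.Agent.H99.CHE.SDn

/-!
# The regular level with changes of the colours of few elements: all modules put together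
-/

set_option autoImplicit false

namespace Pool.Agent.H46.CHE

open Pool.Agent Pool.Agent.H46.CH
open Pool.Agent.H69.Sp Pool.Agent.H69.Mt Pool.Agent.H8.VR Pool.Agent.H69.VR Pool.Agent.H8.JS
open Pool.Agent.H8.DE

theorem t_xln : T_XLn := H72.CHE.pf_XLn H76.CH.pf_TR H1.CHE.pf_JCn

theorem t_xrn : T_XRn := H43.CHE.pf_XRn H76.CH.pf_TR H1.CHE.pf_JCn

theorem t_xdn : T_XDn := H79.CHE.pf_XDn t_xln H40.CHE.pf_XBn

theorem t_ron : T_ROn := H69.CHE.pf_ROn H1.CHE.pf_XPn t_xdn t_jw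

theorem t_shn : T_SHn := H23.CHE.pf_SHn t_xln t_xrn t_ron t_jw

theorem t_sdn : T_SDn := H99.CHE.pf_SDn (H70.CHE.pf_XAn H76.CH.pf_SS) H40.CHE.pf_XBn t_shn
  H40.CHE.pf_EDn t_ron H72.CHE.pf_SMn

theorem t_pmn : T_PMn := pf_PMn (pf_GR t_jw H76.CH.pf_J2 t_j3 t_j4) (pf_GM H76.CH.pf_J2)
  (pf_GJ H76.CH.pf_J1 H76.CH.pf_J2) t_xdn

theorem t_ptn : T_PTn := H99.CHE.pf_PTn H36.CHS.pf_ED H40.CHE.pf_EDn t_ron t_pmn
  (H99.CHE.pf_PSn t_sdn)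

theorem t_ean : T_EAn := H20.CHE.pf_EAn (H40.CHE.pf_XTn H8.CH.pf_DC H8.CH.pf_XJ)

theorem t_esn : T_ESn := H20.CHE.pf_ESn H76.CH.pf_PD
  (H43.CHE.pf_ECn H76.CH.pf_BS H36.CHS.pf_EU (H23.CH.pf_WQ H23.CH.pf_KR) t_ean
    (H20.CHE.pf_EBn H76.CH.pf_TR) t_ptn)

theorem t_rmn : T_RMn := H69.CHE.pf_RMn (H43.CHE.pf_RGn H40.CHE.pf_N3 t_esn)

/-- linear NLC-width at most 2 -/
theorem t_lm2 : T_LM2 := pf_LM2 t_rmn H5.CHE.pf_WGS H5.CHE.pf_WGA H5.CHE.pf_WGB t_reg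

end Pool.Agent.H46.CHE
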