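import Pool.Agent.H46.CHE.AllE

/-!
# The hierarchy, complete
-/

set_option autoImplicit false

namespace Pool.Agent.H46.CHE

open Pool.Agent.H69.Sp Pool.Agent.H69.Mt Pool.Agent.H8.VR Pool.Agent.H69.VR Pool.Agent.H8.JS
open Pool.Agent.H8.DE Pool.Agent.H46.CH

/-- NLC-width at most 1 -/
theorem reg_w (k m : ℕ) (Ψ : MS) (φ : C2) (hΨ : Ψ.Below m) (hk : k ≤ 1) :
    EvPer (specWM k m Ψ φ) := by
  have h3 : k = 0 ∨ k = 1 := by omega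
  rcases h3 with rfl | rfl
  · refine ⟨0, 1, one_pos, fun n _ => ?_⟩
    have : ∀ n, n ∉ specWM 0 m Ψ φ := by
      rintro n ⟨hn, P, R, ⟨c, -⟩, -⟩
      exact (c ⟨0, hn⟩).elim0
    exact iff_of_false (this _) (this _)
  · exact reg_w1 t_reg m Ψ φ hΨ

/-- linear NLC-width: the languages are in `E` -/
theorem lm_de (k m : ℕ) (Ψ : MS) (φ : C2) (hΨ : Ψ.Below m) : lang (specLM k m Ψ φ) ∈ DE := by
  rw [Pool.Agent.H8.CH.pf_LG]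
  refine e_all.2.1 Bool (Fin k) (linG k m) (fun o ho => ?_) m true Ψ φ hΨ
  obtain ⟨x, -, rfl⟩ := List.mem_map.1 ho
  rfl

theorem t_h3 :
    (∀ (N Q : Type) [Finite N] [Finite Q] (G : Gram N Q),
      (∀ o ∈ G.ops, IsSpectrum o.D ∧ IsSpectrum (posCompl o.D)) →
        ∀ (m : ℕ) (s₀ : N) (Ψ : MS) (φ : C2), Ψ.Below m →
          IsSpectrum (specM G m s₀ Ψ φ) ∧ IsSpectrum (posCompl (specM G m s₀ Ψ φ))) ∧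
    (∀ (N Q : Type) [Finite N] [Finite Q] (G : Gram N Q), (∀ o ∈ G.ops, o.D = {n | 0 < n}) →
      ∀ (m : ℕ) (s₀ : N) (Ψ : MS) (φ : C2), Ψ.Below m →
        lang (specM G m s₀ Ψ φ) ∈ DE ∧ lang (specM G m s₀ Ψ φ) ∈ LCF ∧
        ((∀ o ∈ G.ops, Function.Bijective o.f ∧ Function.Bijective o.g) →
          EvPer (specM G m s₀ Ψ φ))) ∧
    (∀ (Ψ : MS) (φ : C2), Ψ.Below 2 → EvPer (specFM Ψ φ)) ∧
    (∀ (k : ℕ) (Ψ : MS) (φ : C2), Ψ.Below k → EvPer (specEM k Ψ φ)) ∧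
    (∀ (k m : ℕ) (Ψ : MS) (φ : C2), Ψ.Below m →
      IsSpectrum (specWM k m Ψ φ) ∧ IsSpectrum (posCompl (specWM k m Ψ φ)) ∧
      lang (specWM k m Ψ φ) ∈ DE ∧ lang (specWM k m Ψ φ) ∈ LCF ∧
      (k ≤ 1 → EvPer (specWM k m Ψ φ))) ∧
    (∃ Ψ : MS, Ψ.Below 1 ∧ (∀ (A : Type) [Finite A] [Nonempty A] (P : ℕ → A → Prop)
        (R : ℕ → A → A → Prop), (∀ e V, Ψ.Sat P R e V) ↔ TreeBlowUp (R 0)) ∧
      ∀ L ∈ LCF, ∃ (φ : C2) (p : Polynomial ℤ), ∀ k ≥ 2, ∀ x : List Bool, ∃ y : List Bool,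
        (num y : ℤ) = p.eval (num x : ℤ) ∧ (x ∈ L ↔ y ∈ lang (specWM k 1 Ψ φ))) ∧
    (∀ (k m : ℕ) (Ψ : MS) (φ : C2), Ψ.Below m →
      IsSpectrum (specLM k m Ψ φ) ∧ IsSpectrum (posCompl (specLM k m Ψ φ)) ∧
      lang (specLM k m Ψ φ) ∈ DE ∧ lang (specLM k m Ψ φ) ∈ NLIN ∧
      (k ≤ 2 → EvPer (specLM k m Ψ φ))) ∧
    ∃ Ψ : MS, Ψ.Below 1 ∧ (∀ (A : Type) [Finite A] [Nonempty A] (P : ℕ → A → Prop)
        (R : ℕ → A → A → Prop), (∀ e V, Ψ.Sat P R e V) ↔ PathBlowUp (R 0)) ∧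
      ∀ L ∈ NLIN, ∃ (φ : C2) (p : Polynomial ℤ), ∀ k ≥ 3, ∀ x : List Bool, ∃ y : List Bool,
        (num y : ℤ) = p.eval (num x : ℤ) ∧ (x ∈ L ↔ y ∈ lang (specLM k 1 Ψ φ)) := by
  refine ⟨e_all.1, fun N Q _ _ G hG m s₀ Ψ φ h => ⟨e_all.2.1 N Q G hG m s₀ Ψ φ h,
      t_cf.1 N Q G hG m s₀ Ψ φ h, fun hb => reg_bij t_reg G
        (fun o ho => ⟨(hb o ho).1, (hb o ho).2, hG o ho⟩) m s₀ Ψ φ h⟩,
      fun Ψ φ h => t_reg.2.1 Ψ φ h, fun k Ψ φ h => t_reg.2.2 k Ψ φ h,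
      fun k m Ψ φ h => ⟨(e_all.2.2.1 k m Ψ φ h).1.1,
      (e_all.2.2.1 k m Ψ φ h).1.2, (e_all.2.2.1 k m Ψ φ h).2, t_cf.2.1 k m Ψ φ h,
      reg_w k m Ψ φ h⟩, hard_w,
      fun k m Ψ φ h => ⟨(lm_compl k m Ψ φ h).1, (lm_compl k m Ψ φ h).2, lm_de k m Ψ φ h,
        t_cs.1 k m Ψ φ h, fun hk => t_lm2 k hk m Ψ φ h⟩, hard_l⟩

end Pool.Agent.H46.CHE
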