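import Pool.Agent.H46.CH.AS
import Pool.Agent.H46.CH.PW
import Pool.Agent.H8.CH.LG

/-!
# Linear NLC-width at most 2
-/

set_option autoImplicit false

namespace Pool.Agent.H46.CHE

open Classical Pool.Agent.H8.VR Pool.Agent.H69.VR Pool.Agent.H46.CH

theorem pf_LM2 (hRM : T_RMn) (hS : T_WGS) (hA : T_WGA) (hB : T_WGB) (hREG : T_REG) :
    Pool.Agent.H46.CH.T_LM2 := by
  intro k hk m Ψ φ hΨ
  have h3 : k = 0 ∨ k = 1 ∨ k = 2 := by omega
  rcases h3 with rfl | rfl | rfl
  · refine ⟨0, 1, one_pos, fun n _ => ?_⟩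
    have : ∀ n, n ∉ specLM 0 m Ψ φ := by
      rintro n ⟨hn, P, R, ⟨c, -⟩, -⟩
      exact (c ⟨0, hn⟩).elim0
    exact iff_of_false (this _) (this _)
  · rw [Pool.Agent.H8.CH.pf_LG]
    refine reg_bij hREG (linG 1 m) ?_ m true Ψ φ hΨ
    intro o ho
    obtain ⟨x, -, rfl⟩ := List.mem_map.1 ho
    exact ⟨Finite.injective_iff_bijective.1 fun a b _ => Subsingleton.elim a b,
      Finite.injective_iff_bijective.1 fun a b _ => Subsingleton.elim a b, rfl⟩
  · have h : specLM 2 m Ψ φ = specM (wG m) m 5 Ψ φ := by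
      ext n
      refine and_congr_right fun _ => exists_congr fun P => exists_congr fun R => ?_
      exact and_congr_left fun _ => ⟨fun h => hA m (Fin n) P R h, fun h => hB m (Fin n) P R h⟩
    rw [h]
    exact hRM _ _ (wG m) (hS m) m 5 Ψ φ hΨ

end Pool.Agent.H46.CHE
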